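import Pool.Agent.H20.LIM.Targets
import Pool.Agent.H23.GLM.Instance

set_option autoImplicit false

open Complex MeasureTheory Set Filter Topology Metric

namespace Pool.Agent.H99.LIM

open Pool.Agent.H20.LIM Pool.Agent.H23.GLM Pool.Agent.H23.DZ

/-- reflection in the imaginary axis preserves null sets -/
lemma qmp_refl : Measure.QuasiMeasurePreserving (fun z : ℂ => -(starRingEnd ℂ) z) volume volume := by
  have h1 : MeasurePreserving (fun z : ℂ => (starRingEnd ℂ) z) volume volume :=
    Complex.conjLIE.measurePreserving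
  have h2 : MeasurePreserving (fun z : ℂ => -z) volume volume := Measure.measurePreserving_neg volume
  exact (h2.comp h1).quasiMeasurePreserving

lemma ae_re_ne : ∀ᵐ z : ℂ, z.re ≠ 0 := by
  have h1 : MeasurePreserving Complex.measurableEquivRealProd :=
    Complex.volume_preserving_equiv_real_prod
  have h2 : ∀ᵐ p : ℝ × ℝ, p.1 ≠ 0 := by
    have h3 : Measure.QuasiMeasurePreserving (Prod.fst : ℝ × ℝ → ℝ) volume volume :=
      Measure.quasiMeasurePreserving_fst
    have h4 : ∀ᵐ x : ℝ, x ≠ 0 := by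
      rw [ae_iff]
      simp
    exact h3.ae h4
  exact h1.quasiMeasurePreserving.ae h2

theorem pf_exp2 (hCPT : T_CPT) (hSM : T_SM) (hLAN : T_LAN) : T_EXP2 := by
  intro m S hM hF a ha hyp ε hε
  by_contra hnot
  have hno : ∀ B : ℝ, ∃ π ∈ S, ∃ t : ℝ, B * π.X t ^ (a + ε) < ‖π.L (1 / 2 + t * I)‖ := by
    intro B
    by_contra hcon
    push Not at hcon
    exact hnot ⟨B, hcon⟩
  choose π hπ t ht using fun k : ℕ => hno ((k : ℝ) + 1)
  obtain ⟨A, hA⟩ := exists_adm hM
  have hX1 : ∀ k, 1 ≤ (π k).X (t k) := fun k => (π k).one_le_X (t k)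
  have hXr : ∀ k, 1 ≤ (π k).X (t k) ^ (a + ε) := fun k =>
    Real.one_le_rpow (hX1 k) (by linarith)
  have hA1 : 1 ≤ A := hA.one_le_A
  -- the conductors tend to infinity
  have hlow : ∀ k : ℕ, (k : ℝ) / (7 * A) ≤ (π k).X (t k) := by
    intro k
    have h1 := hA.grow ⟨π k, hπ k⟩ (1 / 2 + t k * I) (by simp; norm_num)
    have h2 := (norm_F_le_L (π k) (t k)).2
    have h3 : ‖(π k).F (1 / 2 + t k * I)‖ ≤ A * (π k).X (t k) := by
      refine h1.trans (le_of_eq ?_)
      simp only [pow_one, add_im, mul_im, ofReal_re, I_im, mul_one, ofReal_im, I_re, mul_zero,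
        add_zero]
      unfold LData.X
      norm_num
    have h4 := ht k
    have h5 : (k : ℝ) ≤ ((k : ℝ) + 1) * (π k).X (t k) ^ (a + ε) := by
      have : (0 : ℝ) ≤ k := Nat.cast_nonneg k
      nlinarith [hXr k]
    rw [div_le_iff₀ (by linarith)]
    nlinarith
  have hXt : Tendsto (fun k => (π k).X (t k)) atTop atTop := by
    refine tendsto_atTop_mono hlow ?_
    exact Tendsto.atTop_div_const (by linarith) tendsto_natCast_atTop_atTop
  obtain ⟨φ, hφ, q, u, hq0, hq1, hqt, hL1, hsym⟩ := hCPT m S hM hF π t hπ hXt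
  have hXφ : Tendsto (fun k => (π (φ k)).X (t (φ k))) atTop atTop :=
    hXt.comp hφ.tendsto_atTop
  have hlim : IsLimit S q u :=
    ⟨fun k => π (φ k), fun k => t (φ k), fun k => hπ _, hXφ, hqt, hL1⟩
  have hu := hyp q u hlim
  -- the bound for the limit
  have hu2 : ∀ᵐ z : ℂ, u z ≤ a + |z.re| := by
    filter_upwards [hu, hsym, qmp_refl.ae hu, ae_re_ne] with z h1 h2 h3 h4
    rcases lt_or_gt_of_ne h4 with h5 | h5
    · have h6 : 0 < (-(starRingEnd ℂ) z).re := by
        simpa using h5
      have h7 := h3 h6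
      rw [h2] at h7
      have h8 : -(q * z.re) ≤ |z.re| := by
        rw [abs_of_neg h5]
        nlinarith
      linarith
    · have := h1 h5
      have := abs_nonneg z.re
      linarith
  set r : ℝ := ε / 2 with hr
  have hr0 : 0 < r := by positivity
  obtain ⟨hmeas, hLA⟩ := hLAN m S hM hF (fun k => π (φ k)) (fun k => t (φ k)) (fun k => hπ _) hXφ
  have hev := hLA r
  -- the sub-mean value property
  have hvol : 0 < volume.real (ball (0 : ℂ) r) := by
    rw [Measure.real, ENNReal.toReal_pos_iff]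
    exact ⟨measure_ball_pos _ _ hr0, measure_ball_lt_top⟩
  have hkey : ∀ᶠ k in atTop, IntegrableOn (U (π (φ k)) (t (φ k))) (ball 0 r) ∧
      a + ε ≤ av r (U (π (φ k)) (t (φ k))) 0 := by
    filter_upwards [hev, hXφ.eventually_gt_atTop 1] with k h1 h2
    have h3 : (π (φ k)).L (1 / 2 + t (φ k) * I + 0) ≠ 0 := by
      rw [add_zero]
      intro h
      have h4 := ht (φ k)
      rw [h, norm_zero] at h4
      have h5 := hXr (φ k)
      have : (0 : ℝ) ≤ (φ k : ℕ) := Nat.cast_nonneg _
      nlinarith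
    obtain ⟨h4, h5⟩ := hSM (fun z => (π (φ k)).L (1 / 2 + t (φ k) * I + z)) 0 r hr0 h1.1 h3
    have hlog : 0 < Real.log ((π (φ k)).X (t (φ k))) := Real.log_pos h2
    have h6 : IntegrableOn (fun z => Real.log ‖(π (φ k)).L (1 / 2 + t (φ k) * I + z)‖)
        (ball 0 r) := h4.mono_set ball_subset_closedBall
    have h7 : U (π (φ k)) (t (φ k)) = fun z =>
        (Real.log ((π (φ k)).X (t (φ k))))⁻¹ *
          Real.log ‖(π (φ k)).L (1 / 2 + t (φ k) * I + z)‖ := by
      funext z
      unfold U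
      rw [div_eq_inv_mul]
    refine ⟨?_, ?_⟩
    · rw [h7]
      exact h6.const_mul _
    · have h8 : av r (U (π (φ k)) (t (φ k))) 0 = (Real.log ((π (φ k)).X (t (φ k))))⁻¹ *
          av r (fun z => Real.log ‖(π (φ k)).L (1 / 2 + t (φ k) * I + z)‖) 0 := by
        rw [h7]
        unfold av
        rw [setAverage_eq, setAverage_eq, integral_const_mul, smul_eq_mul, smul_eq_mul]
        ring
      rw [h8]
      have h9 : (a + ε) * Real.log ((π (φ k)).X (t (φ k))) ≤
          Real.log ‖(π (φ k)).L (1 / 2 + t (φ k) * I + 0)‖ := by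
        rw [← Real.log_rpow (by linarith), add_zero]
        refine Real.log_le_log (by linarith [hXr (φ k)]) ?_
        have h10 := ht (φ k)
        have h11 := hXr (φ k)
        have : (0 : ℝ) ≤ (φ k : ℕ) := Nat.cast_nonneg _
        nlinarith
      have h10 := h9.trans h5
      rw [← div_eq_inv_mul, le_div_iff₀ hlog]
      exact h10
  -- convergence of the averages
  have hL1r : Tendsto (fun k => ∫⁻ z in ball (0 : ℂ) r, ‖U (π (φ k)) (t (φ k)) z - u z‖ₑ) atTop
      (𝓝 0) :=
    tendsto_of_tendsto_of_tendsto_of_le_of_le tendsto_const_nhds (hL1.2 r)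
      (fun k => bot_le) fun k => lintegral_mono_set ball_subset_closedBall
  have hconv : Tendsto (fun k => ∫ z in ball (0 : ℂ) r, U (π (φ k)) (t (φ k)) z) atTop
      (𝓝 (∫ z in ball (0 : ℂ) r, u z)) :=
    tendsto_integral_of_L1 u hL1.1.restrict (hkey.mono fun k hk => hk.1) hL1r
  have hav : Tendsto (fun k => av r (U (π (φ k)) (t (φ k))) 0) atTop (𝓝 (av r u 0)) := by
    unfold av
    simp_rw [setAverage_eq, smul_eq_mul]
    exact hconv.const_mul _
  have hge : a + ε ≤ av r u 0 :=
    ge_of_tendsto hav (hkey.mono fun k hk => hk.2)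
  -- integrability of the limit
  have hint : IntegrableOn u (ball 0 r) := by
    have h1 : ∀ᶠ k in atTop, ∫⁻ z in ball (0 : ℂ) r, ‖U (π (φ k)) (t (φ k)) z - u z‖ₑ < 1 :=
      hL1r.eventually_lt_const (by norm_num)
    obtain ⟨k, h2, h3⟩ := (h1.and hkey).exists
    have h4 : IntegrableOn (fun z => U (π (φ k)) (t (φ k)) z - u z) (ball 0 r) :=
      ⟨h3.1.aestronglyMeasurable.sub hL1.1.restrict, lt_of_lt_of_le h2 le_top⟩
    have h5 := h3.1.sub h4
    refine h5.congr (Eventually.of_forall fun z => ?_)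
    simp
  have hle : av r u 0 ≤ a + r := by
    unfold av
    rw [setAverage_eq, smul_eq_mul]
    have h1 : ∫ z in ball (0 : ℂ) r, u z ≤ ∫ _ in ball (0 : ℂ) r, (a + r) := by
      refine setIntegral_mono_on_ae hint (integrableOn_const measure_ball_lt_top.ne)
        measurableSet_ball ?_
      filter_upwards [hu2] with z h2 h3
      have h4 : |z.re| ≤ ‖z‖ := Complex.abs_re_le_norm z
      have h5 : ‖z‖ < r := by simpa using h3
      linarith
    rw [setIntegral_const, smul_eq_mul] at h1
    rw [inv_mul_le_iff₀ hvol]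
    exact h1
  linarith

end Pool.Agent.H99.LIM
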