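import Pool.Agent.H20.LIM.Targets
import Pool.Agent.H23.GLM.Instance

set_option autoImplicit false

open Complex MeasureTheory Set Filter Topology Metric

namespace Pool.Agent.H99.LIM

open Pool.Agent.H20.LIM Pool.Agent.H23.GLM Pool.Agent.H23.DZ

theorem pf_famr (hLD : T_LD) : T_FAMR := by
  intro m
  obtain ⟨N₀, a, A, hN₀, hAd, ⟨σ₁, c, hc, hlow⟩, hup, hmain⟩ := hLD m
  refine ⟨N₀, a, A, hN₀, hAd, ⟨(σ₁ : ℂ), fun h => ?_⟩, ?_⟩
  · have h1 := (hlow (σ₁ : ℂ) (by simp)).1
    rw [h, norm_zero] at h1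
    linarith
  intro N F τ hN hE h3 h4
  choose π hπN hπμ hπL using fun n => hmain (N n) (F n) (τ n) (hN n) (hE n)
  have hre : ∀ (n : ℕ) (s : ℂ), (s - τ n * I).re = s.re := by
    intro n s
    simp
  have hre2 : ∀ (n : ℕ) (s : ℂ), (s - 1 / 2 - τ n * I).re = s.re - 1 / 2 := by
    intro n s
    simp
  refine ⟨π, ?_, ?_, fun n => ⟨?_, ?_, ?_⟩⟩
  · intro ε hε
    obtain ⟨BA, hBA⟩ := hup ε hε
    obtain ⟨n₀, hn₀⟩ := exists_nat_one_div_lt hε
    choose B hB using fun n => (hE n).right (1 / 2 + ε)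
    set T : ℝ := 1 + ∑ n ∈ Finset.range n₀, |B n| with hT
    have hT1 : 1 ≤ T := by
      rw [hT]
      have : 0 ≤ ∑ n ∈ Finset.range n₀, |B n| := Finset.sum_nonneg fun n _ => abs_nonneg _
      linarith
    refine ⟨max BA 0 * T, ?_⟩
    rintro _ ⟨n, rfl⟩ s hs
    have hC1 : 1 ≤ (π n).C := (π n).one_le_C
    have hCε : 1 ≤ (π n).C ^ ε := Real.one_le_rpow hC1 hε.le
    have hNC : (N n : ℝ) ≤ (π n).C := by
      have h5 : (1 : ℝ) ≤ ∏ j, (1 + ‖(π n).μ j‖) := one_le_prod_one_add (π n).μ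
      have h6 : (N n : ℝ) ≤ ((π n).N : ℝ) := by
        rw [hπN n]
        exact_mod_cast Nat.le_mul_of_pos_left _ hN₀
      have h7 : (0 : ℝ) ≤ N n := Nat.cast_nonneg _
      unfold LData.C
      nlinarith
    have hFn : ‖F n (s - 1 / 2 - τ n * I)‖ ≤ T * (π n).C ^ ε := by
      by_cases hn : n < n₀
      · have h5 := hB n (s - 1 / 2 - τ n * I) (by rw [hre2]; linarith)
        have h6 : |B n| ≤ ∑ n ∈ Finset.range n₀, |B n| :=
          Finset.single_le_sum (f := fun n => |B n|) (fun n _ => abs_nonneg _)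
            (Finset.mem_range.2 hn)
        have h7 : ‖F n (s - 1 / 2 - τ n * I)‖ ≤ T := by
          rw [hT]
          linarith [le_abs_self (B n)]
        calc ‖F n (s - 1 / 2 - τ n * I)‖ ≤ T * 1 := by rw [mul_one]; exact h7
          _ ≤ _ := by gcongr
      · push Not at hn
        have h8 : (1 : ℝ) / (n + 1) ≤ ε := by
          refine le_trans ?_ hn₀.le
          have : (n₀ : ℝ) ≤ n := by exact_mod_cast hn
          have h9 : (0 : ℝ) ≤ n₀ := Nat.cast_nonneg _
          gcongr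
        have h5 := h3 n (s - 1 / 2 - τ n * I) (by rw [hre2]; linarith)
        have hN1 : (1 : ℝ) ≤ N n := by exact_mod_cast hN n
        calc ‖F n (s - 1 / 2 - τ n * I)‖ ≤ (N n : ℝ) ^ (1 / (n + 1 : ℝ)) := h5
          _ ≤ (N n : ℝ) ^ ε := Real.rpow_le_rpow_of_exponent_le hN1 h8
          _ ≤ (π n).C ^ ε := Real.rpow_le_rpow (by linarith) hNC hε.le
          _ ≤ T * (π n).C ^ ε := by nlinarith
    rw [hπL, norm_mul]
    calc ‖A (s - τ n * I)‖ * ‖F n (s - 1 / 2 - τ n * I)‖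
        ≤ max BA 0 * (T * (π n).C ^ ε) := by
          refine mul_le_mul ?_ hFn (norm_nonneg _) (le_max_right _ _)
          exact (hBA _ (by rw [hre]; exact hs)).trans (le_max_left _ _)
      _ = _ := by ring
  · refine ⟨max σ₁ (3 / 2), c / 2, by positivity, ?_⟩
    rintro _ ⟨n, rfl⟩ s hs
    have h5 := h4 n (s - 1 / 2 - τ n * I) (by
      rw [hre2]
      have := le_max_right σ₁ (3 / 2 : ℝ)
      linarith)
    obtain ⟨h6, h7⟩ := hlow (s - τ n * I) (by
      rw [hre]
      exact (le_max_left _ _).trans hs)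
    set w := F n (s - 1 / 2 - τ n * I) with hw
    have h8 : 1 / 2 ≤ ‖w‖ := by
      have h9 : ‖(1 : ℂ)‖ ≤ ‖w‖ + ‖w - 1‖ := by
        calc ‖(1 : ℂ)‖ = ‖w - (w - 1)‖ := by congr 1; ring
          _ ≤ _ := norm_sub_le _ _
      rw [norm_one] at h9
      linarith
    have h9 : ‖w‖ ≤ 3 / 2 := by
      have h10 : ‖w‖ ≤ ‖w - 1‖ + ‖(1 : ℂ)‖ := by
        calc ‖w‖ = ‖(w - 1) + 1‖ := by congr 1; ring
          _ ≤ _ := norm_add_le _ _
      rw [norm_one] at h10
      linarith
    rw [hπL, norm_mul]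
    constructor
    · nlinarith [norm_nonneg (A (s - τ n * I))]
    · have h10 : (c / 2)⁻¹ = 2 * c⁻¹ := by
        field_simp
      rw [h10]
      have h11 : 0 < c⁻¹ := by positivity
      nlinarith [norm_nonneg (A (s - τ n * I)), norm_nonneg w]
  · unfold LData.X LData.C
    rw [hπN n]
    simp only [hπμ, Finset.prod_const, Finset.card_univ, Fintype.card_fin]
    push_cast
    ring
  · unfold LData.Q
    rw [hπN n]
    simp only [hπμ]
    have h5 : (τ n : ℂ) * I - (a + τ n * I) = -a := by ring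
    rw [h5, norm_neg]
    simp only [Finset.prod_const, Finset.card_univ, Fintype.card_fin]
    push_cast
    ring
  · intro z
    rw [hπL]
    congr 1
    · congr 1
      ring
    · congr 1
      ring

end Pool.Agent.H99.LIM
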